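import Pool.Agent.H361R2.PP.Iface4
import Pool.Agent.H361R2.PP.Main3

/-!
# FIV: five real numbers
-/

set_option autoImplicit false

open Finset MeasureTheory

namespace Pool.Agent.H361R2.PP

namespace FivAux

/-- the next prime after `q` is at normalised distance within `ε` of `x` -/
def RR (x ε : ℝ) (q : ℕ) : Prop := ∃ q' : ℕ, q'.Prime ∧ q < q' ∧
  (∀ p : ℕ, p.Prime → q < p → q' ≤ p) ∧ |((q' : ℝ) - q) / Real.log q - x| < ε

theorem P_prime (j : ℕ) : (P j).Prime := Nat.prime_nth_prime j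

theorem P_lt (j : ℕ) : P j < P (j + 1) :=
  Nat.nth_strictMono Nat.infinite_setOfPred_prime (Nat.lt_succ_self j)

theorem P_next (j p : ℕ) (hp : p.Prime) (h : P j < p) : P (j + 1) ≤ p := by
  classical
  have h1 : P (Nat.count Nat.Prime p) = p := Nat.nth_count hp
  rw [← h1] at h ⊢
  have h2 : j < Nat.count Nat.Prime p := (Nat.nth_lt_nth Nat.infinite_setOfPred_prime).mp h
  exact (Nat.nth_le_nth Nat.infinite_setOfPred_prime).mpr h2

theorem RR_P {x ε : ℝ} {j : ℕ} (h : RR x ε (P j)) :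
    |((P (j + 1) : ℝ) - P j) / Real.log (P j) - x| < ε := by
  obtain ⟨q', h1, h2, h3, h4⟩ := h
  have h5 : q' = P (j + 1) := le_antisymm (h3 _ (P_prime _) (P_lt j)) (P_next j q' h1 h2)
  rwa [h5] at h4

/-- the approximation of the normalised gap -/
theorem approx_gap {L D e0 ε a a' q : ℝ} (hL : 0 < L) (hD0 : 0 < D) (he0 : 0 < e0)
    (he1 : e0 ≤ ε / 4) (he2 : e0 ≤ D / 4)
    (h1 : (D - e0) * L < a' - a) (h2 : a' - a < (D + e0) * L) (hq1 : L ≤ Real.log q)
    (hq2 : Real.log q ≤ L + 2) (hL2 : 8 * D ≤ ε * L) :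
    |(a' - a) / Real.log q - D| < ε := by
  have hlog : 0 < Real.log q := lt_of_lt_of_le hL hq1
  have hε : 0 < ε := by linarith
  rw [abs_lt]
  constructor
  · rw [lt_sub_iff_add_lt, lt_div_iff₀ hlog]
    by_cases hDε : D - ε ≤ 0
    · have h3 : (-ε + D) * Real.log q ≤ 0 := mul_nonpos_of_nonpos_of_nonneg (by linarith) hlog.le
      have h4 : 0 < (D - e0) * L := mul_pos (by linarith) hL
      linarith
    · rw [not_le] at hDε
      have h3 : (-ε + D) * Real.log q ≤ (D - ε) * (L + 2) := by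
        have := mul_le_mul_of_nonneg_left hq2 hDε.le
        linarith
      have h4 : (D - ε) * (L + 2) ≤ (D - e0) * L := by nlinarith
      linarith
  · rw [sub_lt_iff_lt_add, div_lt_iff₀ hlog]
    have h3 : (ε + D) * L ≤ (ε + D) * Real.log q :=
      mul_le_mul_of_nonneg_left hq1 (by linarith)
    have h4 : (D + e0) * L ≤ (ε + D) * L := mul_le_mul_of_nonneg_right (by linarith) hL.le
    linarith

open Classical in
theorem good_RR {β : Fin 5 → ℝ} {ε e0 δ₀ Λ : ℝ} {X n : ℕ} (hX1 : 1 ≤ X)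
    (hδ : ∀ i j, i < j → δ₀ ≤ β j - β i) (hδ0 : 0 < δ₀) (he0 : 0 < e0) (he1 : e0 ≤ ε / 4)
    (he2 : e0 ≤ δ₀ / 4) (hL : 0 < Real.log X) (hLX : Λ * Real.log X ≤ X) (hΛ : 0 ≤ Λ)
    (hL2 : 8 * (β 4 - β 0) ≤ ε * Real.log X) (hn : n ∈ Ico X (2 * X))
    (hg : Good 1 (fun i => 1 + (β i - β 0)) e0 Λ X n) :
    ∃ p ∈ (univ : Finset (Fin 5 × Fin 5)).filter (fun p => p.1 < p.2),
      ∃ a ∈ Icc 1 ⌊Λ * Real.log X⌋₊, (n + a).Prime ∧ RR (β p.2 - β p.1) ε (n + a) := by
  obtain ⟨hg1, hg2⟩ := hg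
  set L := Real.log X with hLd
  set M := ⌊Λ * L⌋₊ with hM
  set cl : Fin 5 → Finset ℕ := fun i => (Icc 1 M).filter (fun a =>
    CL (1 + (β i - β 0)) e0 L a ∧ (n + a).Prime) with hcl
  set Pop : Finset (Fin 5) := (univ : Finset (Fin 5)).filter (fun i => 1 ≤ (cl i).card) with hPop
  have hcard : 1 < Pop.card := by
    have : 5 ≤ 4 * Pop.card := hg1
    omega
  have hpop : ∀ i, i ∈ Pop ↔ (cl i).Nonempty := by
    intro i
    rw [hPop, mem_filter]
    simp only [mem_univ, true_and]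
    rw [← Finset.card_pos]
    exact Iff.rfl
  have hne : Pop.Nonempty := Finset.card_pos.mp (by omega)
  set i₀ := Pop.min' hne with hi₀
  have hi₀m : i₀ ∈ Pop := Pop.min'_mem hne
  have hne2 : (Pop.erase i₀).Nonempty := by
    rw [← Finset.card_pos, Finset.card_erase_of_mem hi₀m]
    omega
  set j₀ := (Pop.erase i₀).min' hne2 with hj₀
  have hj₀m : j₀ ∈ Pop.erase i₀ := (Pop.erase i₀).min'_mem hne2
  rw [mem_erase] at hj₀m
  have hij : i₀ < j₀ := lt_of_le_of_ne (Pop.min'_le _ hj₀m.2) (fun h => hj₀m.1 h.symm)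
  have hci : (cl i₀).Nonempty := (hpop _).mp hi₀m
  have hcj : (cl j₀).Nonempty := (hpop _).mp hj₀m.2
  set a := (cl i₀).max' hci with ha
  set a' := (cl j₀).min' hcj with ha'
  have ham : a ∈ cl i₀ := (cl i₀).max'_mem hci
  have ham' : a' ∈ cl j₀ := (cl j₀).min'_mem hcj
  have ham2 := ham
  have ham2' := ham'
  rw [hcl] at ham2 ham2'
  simp only [mem_filter, mem_Icc] at ham2 ham2'
  obtain ⟨⟨ha1, haM⟩, ⟨hc1, hc2⟩, hap⟩ := ham2
  obtain ⟨⟨ha1', haM'⟩, ⟨hc1', hc2'⟩, hap'⟩ := ham2'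
  have hgap := hδ i₀ j₀ hij
  have haa : (a : ℝ) < a' := by
    have : (1 + (β i₀ - β 0) + e0) * L ≤ (1 + (β j₀ - β 0)) * L :=
      mul_le_mul_of_nonneg_right (by linarith) hL.le
    linarith
  have haa' : a < a' := by exact_mod_cast haa
  refine ⟨(i₀, j₀), by simp [hij], a, mem_Icc.mpr ⟨ha1, haM⟩, hap, ?_⟩
  refine ⟨n + a', hap', by omega, ?_, ?_⟩
  · intro p hp hlt
    by_contra hcon
    rw [not_le] at hcon
    obtain ⟨b, rfl⟩ : ∃ b, p = n + b := ⟨p - n, by omega⟩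
    have hb1 : a < b := by omega
    have hb2 : b < a' := by omega
    have hbm : b ∈ Icc 1 M := mem_Icc.mpr ⟨by omega, by omega⟩
    obtain ⟨l, hl⟩ := hg2 b hbm hp
    have hbl : b ∈ cl l := by
      rw [hcl]
      exact mem_filter.mpr ⟨hbm, hl, hp⟩
    have hlm : l ∈ Pop := (hpop l).mpr ⟨b, hbl⟩
    by_cases hli : l = i₀
    · rw [hli] at hbl
      have := (cl i₀).le_max' b hbl
      rw [← ha] at this
      omega
    · have hle : j₀ ≤ l := (Pop.erase i₀).min'_le l (mem_erase.mpr ⟨hli, hlm⟩)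
      rcases eq_or_lt_of_le hle with h | h
      · rw [← h] at hbl
        have := (cl j₀).min'_le b hbl
        rw [← ha'] at this
        omega
      · have hg3 := hδ j₀ l h
        have h1 : (1 + (β j₀ - β 0) + e0) * L ≤ (1 + (β l - β 0)) * L :=
          mul_le_mul_of_nonneg_right (by linarith) hL.le
        have h2 : (1 + (β l - β 0)) * L < b := hl.1
        have h3 : (a' : ℝ) < b := by linarith
        have h4 : a' < b := by exact_mod_cast h3
        omega
  · have hn' := mem_Ico.mp hn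
    have hX0 : (1 : ℝ) ≤ X := by exact_mod_cast hX1
    have hnX : (X : ℝ) ≤ n := by exact_mod_cast hn'.1
    have hnX2 : (n : ℝ) ≤ 2 * X := by exact_mod_cast hn'.2.le
    have haX : (a : ℝ) ≤ X := by
      have h1 : (a : ℝ) ≤ M := by exact_mod_cast haM
      have h2 : (M : ℝ) ≤ Λ * L := Nat.floor_le (by positivity)
      linarith
    have ha0 : (0 : ℝ) ≤ a := Nat.cast_nonneg a
    have e1 : ((n + a' : ℕ) : ℝ) - ((n + a : ℕ) : ℝ) = (a' : ℝ) - a := by
      push_cast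
      ring
    rw [e1]
    have hβ4 : β j₀ - β i₀ ≤ β 4 - β 0 := by
      have k1 : β j₀ ≤ β 4 := by
        rcases eq_or_lt_of_le (show j₀ ≤ 4 from Fin.le_last j₀) with h | h
        · rw [h]
        · have := hδ j₀ 4 h
          linarith
      have k2 : β 0 ≤ β i₀ := by
        rcases eq_or_lt_of_le (Fin.zero_le i₀) with h | h
        · rw [← h]
        · have := hδ 0 i₀ h
          linarith
      linarith
    refine approx_gap (e0 := e0) hL (by linarith) he0 he1 (by linarith) ?_ ?_ ?_ ?_ (by linarith)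
    · have : (1 + (β j₀ - β 0)) * L - (1 + (β i₀ - β 0) + e0) * L = (β j₀ - β i₀ - e0) * L := by ring
      linarith
    · have : (1 + (β j₀ - β 0) + e0) * L - (1 + (β i₀ - β 0)) * L = (β j₀ - β i₀ + e0) * L := by ring
      linarith
    · apply Real.log_le_log (by linarith)
      push_cast
      linarith
    · have h1 : ((n + a : ℕ) : ℝ) ≤ 3 * X := by
        push_cast
        linarith
      have h2 : Real.log ((n + a : ℕ) : ℝ) ≤ Real.log (3 * X) := by
        apply Real.log_le_log _ h1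
        push_cast
        linarith
      rw [Real.log_mul (by norm_num) (by linarith)] at h2
      have h3 : Real.log 3 ≤ 2 := by
        have := Real.log_le_sub_one_of_pos (show (0 : ℝ) < 3 by norm_num)
        linarith
      linarith

end FivAux

open FivAux

open Classical in
theorem fiv_of : MasterT → Tra → Fiv := by
  intro hM hT β hβ ε hε
  obtain ⟨p₀, hp₀⟩ : ∃ p₀ : {p : Fin 5 × Fin 5 // p.1 < p.2},
      ∀ p : {p : Fin 5 × Fin 5 // p.1 < p.2}, β p₀.1.2 - β p₀.1.1 ≤ β p.1.2 - β p.1.1 := by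
    have : Nonempty {p : Fin 5 × Fin 5 // p.1 < p.2} := ⟨⟨(0, 1), by decide⟩⟩
    exact Finite.exists_min (fun p : {p : Fin 5 × Fin 5 // p.1 < p.2} => β p.1.2 - β p.1.1)
  set δ₀ := β p₀.1.2 - β p₀.1.1 with hδd
  have hδ0 : 0 < δ₀ := sub_pos.mpr (hβ p₀.2)
  have hδ : ∀ i j, i < j → δ₀ ≤ β j - β i := fun i j h => hp₀ ⟨(i, j), h⟩
  set e0 := min ε δ₀ / 4 with he
  have he0 : 0 < e0 := by
    have := lt_min hε hδ0
    positivity
  have he1 : e0 ≤ ε / 4 := by
    have := min_le_left ε δ₀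
    linarith
  have he2 : e0 ≤ δ₀ / 4 := by
    have := min_le_right ε δ₀
    linarith
  set Λ := 1 + (β 4 - β 0) + e0 with hΛd
  have h04 : 0 < β 4 - β 0 := sub_pos.mpr (hβ (by decide))
  have hΛ : 0 < Λ := by linarith
  obtain ⟨c, hc, X₀, hX₀⟩ := hM 5 1 (fun i => 1 + (β i - β 0)) e0 Λ he0 hΛ (by
    intro i
    have k1 : β i ≤ β 4 := hβ.monotone (Fin.le_last i)
    have k2 : β 0 ≤ β i := hβ.monotone (Fin.zero_le i)
    constructor
    · linarith
    · rw [hΛd]; linarith)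
  obtain ⟨c', hc', hT'⟩ := hT (c / 10) Λ (by positivity) hΛ
  -- large X
  have hev : ∀ᶠ X : ℕ in Filter.atTop, X₀ ≤ X ∧ 1 ≤ X ∧ 0 < Real.log X ∧ Λ * Real.log X ≤ X ∧
      8 * (β 4 - β 0) ≤ ε * Real.log X := by
    have l1 : Filter.Tendsto (fun X : ℕ => Real.log X) Filter.atTop Filter.atTop :=
      Real.tendsto_log_atTop.comp tendsto_natCast_atTop_atTop
    have l2 : ∀ᶠ X : ℕ in Filter.atTop, Λ * Real.log X ≤ X := by
      have h1 := (Real.isLittleO_log_id_atTop.comp_tendsto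
        (tendsto_natCast_atTop_atTop (R := ℝ))).def (c := 1 / Λ) (by positivity)
      filter_upwards [h1, Filter.eventually_ge_atTop 1] with X hX hX1
      have hX1' : (1 : ℝ) ≤ X := by exact_mod_cast hX1
      simp only [Function.comp, id, Real.norm_eq_abs] at hX
      rw [abs_of_nonneg (Real.log_nonneg hX1'), abs_of_nonneg (by linarith : (0 : ℝ) ≤ X)] at hX
      have := mul_le_mul_of_nonneg_left hX hΛ.le
      calc Λ * Real.log X ≤ Λ * (1 / Λ * X) := this
        _ = X := by field_simp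
    filter_upwards [Filter.eventually_ge_atTop X₀, Filter.eventually_ge_atTop 1,
      l1.eventually_gt_atTop 0, l2, l1.eventually_ge_atTop (8 * (β 4 - β 0) / ε)]
      with X h1 h2 h3 h4 h5
    refine ⟨h1, h2, h3, h4, ?_⟩
    rw [div_le_iff₀ hε] at h5
    linarith
  obtain ⟨X₁, hX₁⟩ := Filter.eventually_atTop.mp hev
  obtain ⟨N₀, hN₀⟩ := hT' X₁
  refine ⟨c', hc', N₀, fun N hN => ?_⟩
  obtain ⟨X, hX, hR⟩ := hN₀ N hN
  obtain ⟨k1, k2, k3, k4, k5⟩ := hX₁ X hX
  have hG := hX₀ X k1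
  set pairs := (univ : Finset (Fin 5 × Fin 5)).filter (fun p => p.1 < p.2) with hpairs
  have hcard : pairs.card = 10 := by
    rw [hpairs]
    have : (univ : Finset (Fin 5 × Fin 5)).filter (fun p => p.1 < p.2) =
      @Finset.filter _ (fun p : Fin 5 × Fin 5 => p.1 < p.2) (fun p => Fin.decLt _ _) univ := by
      congr
    rw [this]
    decide
  have hkey : ∃ p ∈ pairs, c / 10 * X ≤ (((Ico X (2 * X)).filter (fun n =>
      ∃ a ∈ Icc 1 ⌊Λ * Real.log X⌋₊, (n + a).Prime ∧ RR (β p.2 - β p.1) ε (n + a))).card : ℝ) := by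
    by_contra hcon
    push Not at hcon
    have h1 : ((Ico X (2 * X)).filter (fun n => Good 1 (fun i => 1 + (β i - β 0)) e0 Λ X n)) ⊆
        pairs.biUnion (fun p => (Ico X (2 * X)).filter (fun n =>
      ∃ a ∈ Icc 1 ⌊Λ * Real.log X⌋₊, (n + a).Prime ∧ RR (β p.2 - β p.1) ε (n + a))) := by
      intro n hn
      rw [mem_filter] at hn
      obtain ⟨p, hp, a, ha⟩ := good_RR k2 hδ hδ0 he0 he1 he2 k3 k4 hΛ.le k5 hn.1 hn.2
      rw [mem_biUnion]
      exact ⟨p, hp, mem_filter.mpr ⟨hn.1, a, ha⟩⟩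
    have h2 := (card_le_card h1).trans card_biUnion_le
    have h3 : (((Ico X (2 * X)).filter (fun n =>
        Good 1 (fun i => 1 + (β i - β 0)) e0 Λ X n)).card : ℝ) ≤
        ∑ p ∈ pairs, (((Ico X (2 * X)).filter (fun n =>
      ∃ a ∈ Icc 1 ⌊Λ * Real.log X⌋₊, (n + a).Prime ∧ RR (β p.2 - β p.1) ε (n + a))).card : ℝ) := by
      exact_mod_cast h2
    have h4 : ∑ p ∈ pairs, (((Ico X (2 * X)).filter (fun n =>
      ∃ a ∈ Icc 1 ⌊Λ * Real.log X⌋₊, (n + a).Prime ∧ RR (β p.2 - β p.1) ε (n + a))).card : ℝ) <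
        ∑ p ∈ pairs, (c / 10 * X) := by
      apply Finset.sum_lt_sum_of_nonempty
      · rw [← Finset.card_pos, hcard]
        norm_num
      · exact hcon
    rw [sum_const, hcard, nsmul_eq_mul] at h4
    push_cast at h4
    linarith
  obtain ⟨p, hp, hpc⟩ := hkey
  have hfin := hR (RR (β p.2 - β p.1) ε) hpc
  refine ⟨p.1, p.2, (mem_filter.mp hp).2, ?_⟩
  unfold Near
  refine hfin.trans ?_
  have hsub : (range N).filter (fun j => RR (β p.2 - β p.1) ε (P j)) ⊆
      (range N).filter (fun j =>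
        |((P (j + 1) : ℝ) - P j) / Real.log (P j) - (β p.2 - β p.1)| < ε) := by
    intro j hj
    rw [mem_filter] at hj ⊢
    exact ⟨hj.1, RR_P hj.2⟩
  exact_mod_cast card_le_card hsub

end Pool.Agent.H361R2.PP
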